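import Pool.Agent.Y138.PB.Crit

set_option autoImplicit false

namespace Pool.Agent.Results.MP_003b3e_an.TorsionFreeProfinite

open ContinuousMap Pool.Agent.H848R3 Pool.Agent.Y138.PB

/-- **The type 1 noncommutative Borsuk-Ulam conjecture fails for every non-trivial torsion-free
profinite abelian group.** Let `p i`, `i ∈ ι`, be any family of primes and let `G` be a
non-trivial compact abelian group with an injective continuous homomorphism to the product of the
groups of `p i`-adic integers. Then `C(G)` acts freely on a commutative unital C*-algebra `C(X)`,
`X` a nonempty compact Hausdorff space, in such a way that there is an equivariant unital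
*-homomorphism from `C(X)` to the equivariant noncommutative join of `C(X)` and `C(G)`. The space
`X` depends only on the family of primes. -/
theorem result {ι : Type} (p : ι → ℕ) [∀ i, Fact (p i).Prime] :
    ∃ (X : Type) (_ : TopologicalSpace X) (_ : CompactSpace X) (_ : T2Space X) (_ : Nonempty X),
      ∀ (G : Type) [TopologicalSpace G] [AddCommGroup G] [IsTopologicalAddGroup G]
        [CompactSpace G] [Nontrivial G] (j : G →+ ((i : ι) → ℤ_[p i])),
        Continuous j → Function.Injective j →
        ∃ (_ : AddAction G X) (_ : ContinuousVAdd G X), IsCounterexample G X := by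
  refine ⟨(i : ι) → XX (p i), inferInstance, inferInstance, inferInstance, inferInstance, ?_⟩
  intro G _ _ _ _ _ j hj hinj
  have hT2 : T2Space G := T2Space.of_injective_continuous hinj hj
  let A : AddAction G ((i : ι) → XX (p i)) :=
    { vadd := fun g x => fun i => (j g i) +ᵥ x i
      zero_vadd := fun x => by
        funext i
        show j 0 i +ᵥ x i = x i
        rw [map_zero]
        exact zero_vadd _ _
      add_vadd := fun g h x => by
        funext i
        show j (g + h) i +ᵥ x i = j g i +ᵥ (j h i +ᵥ x i)
        rw [map_add]
        exact add_vadd _ _ _ }
  have hA : ContinuousVAdd G ((i : ι) → XX (p i)) := by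
    refine ⟨continuous_pi fun i => ?_⟩
    show Continuous fun q : G × ((i : ι) → XX (p i)) => (j q.1 i) +ᵥ q.2 i
    exact (((continuous_apply i).comp hj).comp continuous_fst).vadd
      ((continuous_apply i).comp continuous_snd)
  refine ⟨A, hA, ?_⟩
  choose K c hK1 hK0 using fun i => exists_homotopy (p i)
  refine isCounterexample_of_homotopy G _ ?_
    ⟨fun q => fun i => K i (q.1, q.2 i), ?_⟩ (fun i => c i) ?_ ?_
  · intro g x h
    apply hinj
    rw [map_zero]
    funext i
    have h1 : (j g i) +ᵥ x i = x i := congrFun h i
    exact free_XX (p i) _ _ h1
  · refine continuous_pi fun i => ?_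
    exact (K i).continuous.comp
      (continuous_fst.prodMk ((continuous_apply i).comp continuous_snd))
  · intro x
    funext i
    exact hK1 i _
  · intro g x
    funext i
    exact hK0 i _ _

end Pool.Agent.Results.MP_003b3e_an.TorsionFreeProfinite
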